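import Mathlib

/-!
# The maximal function of a relaxed-convexity class: definitions and all the lemmas

For every `m ≥ 2` we have `G ≤ F_m ≤ G + 6/m` on `[0,1]`, where `G` is an explicit function that
does not depend on `m`, and `F_m` equals `G` at explicit points.
-/

set_option autoImplicit false

namespace Pool.Agent.H14RC

open Finset

/-! ### Definitions -/

/-- Relaxed `m`-convexity on `[0,1]`; the points of the sequence are `x 0 ≤ ... ≤ x (m-1)`. -/
def RelaxedConvex (m : ℕ) (f : ℝ → ℝ) : Prop :=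
  ∀ x : ℕ → ℝ, (∀ i, i < m → 0 ≤ x i ∧ x i ≤ 1) → (∀ i j, i ≤ j → j < m → x i ≤ x j) →
    f ((∑ i ∈ range m, x i) / m) ≤ (∑ i ∈ range m, f (x i)) / m + (x (m - 1) - x 0)

/-- The class `𝓕_m` of relaxed convex functions, bounded above on `[0,1]`. -/
def InClass (m : ℕ) (f : ℝ → ℝ) : Prop :=
  f 0 ≤ 0 ∧ f 1 ≤ 0 ∧ (∃ M : ℝ, ∀ x : ℝ, 0 ≤ x → x ≤ 1 → f x ≤ M) ∧ RelaxedConvex m f

/-- The maximal function `F_m`. -/
noncomputable def F (m : ℕ) (x : ℝ) : ℝ := sSup {y : ℝ | ∃ f : ℝ → ℝ, InClass m f ∧ y = f x}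

/-- The term `(k+1) x^{k/(k+1)}`. -/
noncomputable def a (k : ℕ) (x : ℝ) : ℝ := ((k : ℝ) + 1) * x ^ ((k : ℝ) / ((k : ℝ) + 1))

/-- The limit function `G(x) = inf_k min ((k+1) x^{k/(k+1)}) ((k+1) (1-x)^{k/(k+1)})`. -/
noncomputable def G (x : ℝ) : ℝ := ⨅ k : ℕ, min (a k x) (a k (1 - x))

/-! ### Basic properties of the terms -/

lemma a_nonneg (k : ℕ) {x : ℝ} (hx : 0 ≤ x) : 0 ≤ a k x := by
  unfold a; positivity

lemma a_zero (x : ℝ) : a 0 x = 1 := by simp [a]

lemma a_mono (k : ℕ) {x y : ℝ} (hx : 0 ≤ x) (hxy : x ≤ y) : a k x ≤ a k y := by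
  unfold a
  apply mul_le_mul_of_nonneg_left _ (by positivity)
  exact Real.rpow_le_rpow hx hxy (by positivity)

lemma a_pow (k : ℕ) {r : ℝ} (hr : 0 ≤ r) : a k (r ^ (k + 1)) = (k + 1) * r ^ k := by
  unfold a
  congr 1
  rw [← Real.rpow_natCast r (k + 1), ← Real.rpow_mul hr, ← Real.rpow_natCast r k]
  congr 1
  have : ((k : ℝ) + 1) ≠ 0 := by positivity
  push_cast
  field_simp

lemma exists_root (k : ℕ) {x : ℝ} (hx : 0 ≤ x) : ∃ r : ℝ, 0 ≤ r ∧ r ^ (k + 1) = x := by
  refine ⟨x ^ (((k : ℝ) + 1)⁻¹), by positivity, ?_⟩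
  rw [← Real.rpow_natCast, ← Real.rpow_mul hx]
  have : ((k : ℝ) + 1) ≠ 0 := by positivity
  push_cast
  rw [inv_mul_cancel₀ this, Real.rpow_one]

lemma a_concave (k : ℕ) : ConcaveOn ℝ (Set.Ici 0) (a k) := by
  have h : ConcaveOn ℝ (Set.Ici 0) (fun x : ℝ => x ^ ((k : ℝ) / ((k : ℝ) + 1))) := by
    apply Real.concaveOn_rpow (by positivity)
    rw [div_le_one (by positivity)]
    linarith
  have := h.smul (c := (k : ℝ) + 1) (by positivity)
  exact this

/-- Jensen for two points. -/
lemma a_conc (k : ℕ) {x y s t : ℝ} (hx : 0 ≤ x) (hy : 0 ≤ y) (hs : 0 ≤ s) (ht : 0 ≤ t)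
    (hst : s + t = 1) : s * a k x + t * a k y ≤ a k (s * x + t * y) :=
  (a_concave k).2 hx hy hs ht hst

lemma a_zero_le (k : ℕ) : 0 ≤ a k 0 := a_nonneg k le_rfl

/-- `(k+1) (1/4)^{k/(k+1)} ≥ 1`. -/
lemma a_quarter (k : ℕ) : 1 ≤ a k (1 / 4) := by
  obtain ⟨r, hr0, hr⟩ := exists_root k (x := 1 / 4) (by norm_num)
  rw [← hr, a_pow k hr0]
  -- `((k+1) r^k)^(k+1) = (k+1)^(k+1) (1/4)^k ≥ 1`
  by_contra hcon
  push Not at hcon
  have h1 : (((k : ℝ) + 1) * r ^ k) ^ (k + 1) < 1 :=
    pow_lt_one₀ (by positivity) hcon (by omega)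
  have h2 : (((k : ℝ) + 1) * r ^ k) ^ (k + 1) = ((k : ℝ) + 1) ^ (k + 1) * (1 / 4) ^ k := by
    rw [mul_pow, ← pow_mul, mul_comm k (k + 1), pow_mul, hr]
  have h3 : (4 : ℝ) ^ k ≤ ((k : ℝ) + 1) ^ (k + 1) := by
    rcases k with _ | _ | _ | k
    · norm_num
    · norm_num
    · norm_num
    · calc (4 : ℝ) ^ (k + 3) ≤ (((k + 3 : ℕ) : ℝ) + 1) ^ (k + 3) := by
            apply pow_le_pow_left₀ (by norm_num)
            push_cast
            have : (0 : ℝ) ≤ k := Nat.cast_nonneg k
            linarith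
        _ ≤ _ := by
            apply pow_le_pow_right₀ _ (by omega)
            have : (0 : ℝ) ≤ ((k + 3 : ℕ) : ℝ) := Nat.cast_nonneg _
            linarith
  rw [h2] at h1
  have h4 : (1 / 4 : ℝ) ^ k * 4 ^ k = 1 := by rw [← mul_pow]; norm_num
  have h5 : 0 < (1 / 4 : ℝ) ^ k := by positivity
  nlinarith [mul_le_mul_of_nonneg_left h3 h5.le]

/-- `a_k(v) ≥ min(1,4v)`. -/
lemma a_lower (k : ℕ) {v : ℝ} (hv : 0 ≤ v) : min 1 (4 * v) ≤ a k v := by
  rcases le_total (1 / 4) v with h | h
  · exact (min_le_left _ _).trans ((a_quarter k).trans (a_mono k (by norm_num) h))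
  · refine (min_le_right _ _).trans ?_
    have := a_conc k (x := 1 / 4) (y := 0) (s := 4 * v) (t := 1 - 4 * v) (by norm_num) le_rfl
      (by linarith) (by linarith) (by ring)
    have h1 := a_quarter k
    have h2 := a_zero_le k
    have h3 : 4 * v * (1 / 4) + (1 - 4 * v) * 0 = v := by ring
    rw [h3] at this
    nlinarith [mul_nonneg (show 0 ≤ 1 - 4 * v by linarith) h2,
      mul_le_mul_of_nonneg_left h1 (show 0 ≤ 4 * v by linarith)]

/-! ### Basic properties of `G` -/

lemma G_bdd {x : ℝ} (h0 : 0 ≤ x) (h1 : x ≤ 1) :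
    BddBelow (Set.range fun k : ℕ => min (a k x) (a k (1 - x))) := by
  refine ⟨0, ?_⟩
  rintro _ ⟨k, rfl⟩
  exact le_min (a_nonneg k h0) (a_nonneg k (by linarith))

lemma G_le (k : ℕ) {x : ℝ} (h0 : 0 ≤ x) (h1 : x ≤ 1) : G x ≤ a k x :=
  (ciInf_le (G_bdd h0 h1) k).trans (min_le_left _ _)

lemma G_le' (k : ℕ) {x : ℝ} (h0 : 0 ≤ x) (h1 : x ≤ 1) : G x ≤ a k (1 - x) :=
  (ciInf_le (G_bdd h0 h1) k).trans (min_le_right _ _)

lemma le_G {x c : ℝ} (h : ∀ k, c ≤ a k x) (h' : ∀ k, c ≤ a k (1 - x)) : c ≤ G x :=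
  le_ciInf fun k => le_min (h k) (h' k)

lemma G_nonneg {x : ℝ} (h0 : 0 ≤ x) (h1 : x ≤ 1) : 0 ≤ G x :=
  le_G (fun k => a_nonneg k h0) (fun k => a_nonneg k (by linarith))

lemma G_le_one {x : ℝ} (h0 : 0 ≤ x) (h1 : x ≤ 1) : G x ≤ 1 := by
  have := G_le 0 h0 h1
  rwa [a_zero] at this

lemma G_symm (x : ℝ) : G (1 - x) = G x := by
  unfold G
  congr 1
  funext k
  rw [min_comm]
  congr 1
  congr 1
  ring

lemma G_zero : G 0 = 0 := by
  apply le_antisymm _ (G_nonneg le_rfl zero_le_one)
  have := G_le 1 (x := 0) le_rfl zero_le_one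
  have h : a 1 0 = 0 := by
    unfold a
    rw [Real.zero_rpow (by norm_num)]
    simp
  linarith

lemma G_one : G 1 = 0 := by
  have := G_symm 0
  rw [G_zero] at this
  simpa using this

lemma G_conc {x y s t : ℝ} (hx0 : 0 ≤ x) (hx1 : x ≤ 1) (hy0 : 0 ≤ y) (hy1 : y ≤ 1) (hs : 0 ≤ s)
    (ht : 0 ≤ t) (hst : s + t = 1) : s * G x + t * G y ≤ G (s * x + t * y) := by
  apply le_G
  · intro k
    refine le_trans ?_ (a_conc k hx0 hy0 hs ht hst)
    exact add_le_add (mul_le_mul_of_nonneg_left (G_le k hx0 hx1) hs)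
      (mul_le_mul_of_nonneg_left (G_le k hy0 hy1) ht)
  · intro k
    have e : 1 - (s * x + t * y) = s * (1 - x) + t * (1 - y) := by
      have : s = 1 - t := by linarith
      subst this; ring
    rw [e]
    refine le_trans ?_ (a_conc k (by linarith) (by linarith) hs ht hst)
    exact add_le_add (mul_le_mul_of_nonneg_left (G_le' k hx0 hx1) hs)
      (mul_le_mul_of_nonneg_left (G_le' k hy0 hy1) ht)

/-- Concavity of `G` in three-point form. -/
lemma G_conc3 {u v w : ℝ} (hu : 0 ≤ u) (huv : u ≤ v) (hvw : v ≤ w) (hw : w ≤ 1) :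
    (w - v) * G u + (v - u) * G w ≤ (w - u) * G v := by
  rcases eq_or_lt_of_le (huv.trans hvw) with h | h
  · have h1 : v = u := by linarith
    have h2 : w = u := by linarith
    subst h1; subst h2; simp
  · have hd : 0 < w - u := by linarith
    have := G_conc (x := u) (y := w) (s := (w - v) / (w - u)) (t := (v - u) / (w - u)) hu
      (by linarith) (by linarith) hw (div_nonneg (by linarith) hd.le)
      (div_nonneg (by linarith) hd.le) (by field_simp; ring)
    have e : (w - v) / (w - u) * u + (v - u) / (w - u) * w = v := by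
      field_simp; ring
    rw [e] at this
    have := mul_le_mul_of_nonneg_left this hd.le
    have e2 : (w - u) * ((w - v) / (w - u) * G u + (v - u) / (w - u) * G w)
        = (w - v) * G u + (v - u) * G w := by
      field_simp
    rw [e2] at this
    exact this

/-! ### The key inequality `G(x) ≤ (x/b) G(b) + b` -/

lemma two_sqrt_le {x y : ℝ} (hx : 0 ≤ x) (hy : 0 ≤ y) : a 1 (x * y) ≤ x + y := by
  obtain ⟨r, hr0, hr⟩ := exists_root 1 (x := x * y) (by positivity)
  rw [← hr, a_pow 1 hr0]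
  push_cast
  have : r ^ 2 = x * y := hr
  nlinarith [sq_nonneg (x - y), sq_nonneg (x + y - 2 * r), sq_nonneg (x + y + 2 * r)]

lemma key_left (k : ℕ) {l b : ℝ} (hl0 : 0 ≤ l) (hb0 : 0 ≤ b) :
    a (k + 1) (l * b) ≤ l * a k b + b := by
  unfold a
  have h2 : (0 : ℝ) < (k : ℝ) + 2 := by positivity
  have h1 : (0 : ℝ) < (k : ℝ) + 1 := by positivity
  have amgm := Real.geom_mean_le_arith_mean2_weighted (w₁ := ((k : ℝ) + 1) / ((k : ℝ) + 2))
    (w₂ := 1 / ((k : ℝ) + 2)) (p₁ := l * b ^ ((k : ℝ) / ((k : ℝ) + 1))) (p₂ := b)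
    (by positivity) (by positivity) (by positivity) hb0 (by field_simp; ring)
  have e : (l * b) ^ (((k : ℝ) + 1) / ((k : ℝ) + 2)) =
      (l * b ^ ((k : ℝ) / ((k : ℝ) + 1))) ^ (((k : ℝ) + 1) / ((k : ℝ) + 2))
        * b ^ (1 / ((k : ℝ) + 2)) := by
    rw [Real.mul_rpow hl0 hb0, Real.mul_rpow hl0 (by positivity), ← Real.rpow_mul hb0, mul_assoc]
    congr 1
    rw [← Real.rpow_add_of_nonneg hb0 (by positivity) (by positivity)]
    congr 1
    field_simp
  have e3 : (((k + 1 : ℕ) : ℝ) / (((k + 1 : ℕ) : ℝ) + 1)) = ((k : ℝ) + 1) / ((k : ℝ) + 2) := by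
    push_cast; ring
  rw [e3, e]
  have := mul_le_mul_of_nonneg_left amgm h2.le
  push_cast
  calc _ = ((k : ℝ) + 2) * ((l * b ^ ((k : ℝ) / ((k : ℝ) + 1))) ^ (((k : ℝ) + 1) / ((k : ℝ) + 2))
        * b ^ (1 / ((k : ℝ) + 2))) := by ring
    _ ≤ _ := this
    _ = _ := by field_simp

lemma key_right (k : ℕ) {l b : ℝ} (hl0 : 0 ≤ l) (hl1 : l ≤ 1) (hb0 : 0 ≤ b) (hb1 : b ≤ 1) :
    G (l * b) ≤ l * a k (1 - b) + b := by
  have hlb0 : 0 ≤ l * b := by positivity
  have hlb1 : l * b ≤ 1 := mul_le_one₀ hl1 hb0 hb1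
  have hw := a_lower k (v := 1 - b) (by linarith)
  rcases le_total (1 / 4) (1 - b) with h | h
  · rw [min_eq_left (by linarith)] at hw
    calc G (l * b) ≤ a 1 (l * b) := G_le 1 hlb0 hlb1
      _ ≤ l + b := two_sqrt_le hl0 hb0
      _ ≤ _ := by nlinarith
  · rw [min_eq_right (by linarith)] at hw
    have hw2 : l * (4 * (1 - b)) ≤ l * a k (1 - b) := mul_le_mul_of_nonneg_left hw hl0
    rcases le_total (1 / 4) l with h4 | h4
    · have := G_le_one hlb0 hlb1
      nlinarith
    · have h5 : a 1 ((2 * l) * (b / 2)) ≤ 2 * l + b / 2 :=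
        two_sqrt_le (by linarith) (by linarith)
      have e : (2 * l) * (b / 2) = l * b := by ring
      rw [e] at h5
      have h6 := G_le 1 hlb0 hlb1
      nlinarith

/-- The key inequality, with `x = l b`. -/
lemma key {l b : ℝ} (hl0 : 0 ≤ l) (hl1 : l ≤ 1) (hb0 : 0 ≤ b) (hb1 : b ≤ 1) :
    G (l * b) ≤ l * G b + b := by
  rcases eq_or_lt_of_le hl0 with h | h
  · subst h
    simp [G_zero, hb0]
  · have hlb0 : 0 ≤ l * b := by positivity
    have hlb1 : l * b ≤ 1 := mul_le_one₀ hl1 hb0 hb1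
    have : (G (l * b) - b) / l ≤ G b := by
      apply le_G
      · intro k
        rw [div_le_iff₀ h]
        have := (G_le (k + 1) hlb0 hlb1).trans (key_left k hl0 hb0)
        linarith
      · intro k
        rw [div_le_iff₀ h]
        have := key_right k hl0 hl1 hb0 hb1
        linarith
    rw [div_le_iff₀ h] at this
    linarith

/-- The key inequality multiplied by `b`. -/
lemma key' {x b : ℝ} (hx0 : 0 ≤ x) (hxb : x ≤ b) (hb0 : 0 < b) (hb1 : b ≤ 1) :
    b * G x ≤ x * G b + b ^ 2 := by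
  have h := key (l := x / b) (b := b) (by positivity) (by rwa [div_le_one hb0]) hb0.le hb1
  have e : x / b * b = x := by field_simp
  rw [e] at h
  have := mul_le_mul_of_nonneg_left h hb0.le
  have e2 : b * (x / b * G b + b) = x * G b + b ^ 2 := by field_simp
  linarith

/-! ### The two-point inequality -/

/-- Two-point inequality for a nonnegative slope. -/
lemma two_point_pos {a' b x s : ℝ} (ha0 : 0 ≤ a') (hax : a' ≤ x) (hxb : x ≤ b) (hb1 : b ≤ 1)
    (hs : 0 ≤ s) (hslope : G a' - s * a' = G b - s * b) :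
    G x - s * x - (G a' - s * a') ≤ b - a' := by
  have hx0 : 0 ≤ x := ha0.trans hax
  have hx1 : x ≤ 1 := hxb.trans hb1
  have hb0 : 0 ≤ b := hx0.trans hxb
  set T := G x - s * x with hT
  set c := G a' - s * a' with hc
  by_contra hcon
  push Not at hcon
  have hTc : c < T := by linarith
  -- x > 0
  have hxpos : 0 < x := by
    rcases eq_or_lt_of_le hx0 with h | h
    · exfalso
      have ha : a' = 0 := by linarith
      have hxx : x = 0 := h.symm
      rw [hT, hc, hxx, ha] at hTc
      simp at hTc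
    · exact h
  have hxltb : x < b := by
    rcases eq_or_lt_of_le hxb with h | h
    · exfalso
      rw [hslope, hT, h] at hTc
      exact lt_irrefl _ hTc
    · exact h
  -- concavity between 0, a', x
  have h1 : a' * T ≤ x * c := by
    have := G_conc3 (u := 0) (v := a') (w := x) le_rfl ha0 hax hx1
    rw [G_zero] at this
    rw [hT, hc]
    nlinarith
  have hTpos : 0 < T := by
    by_contra hneg
    push Not at hneg
    nlinarith [mul_nonneg (show 0 ≤ x - a' by linarith) (show 0 ≤ -T by linarith)]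
  have hc0 : 0 ≤ c := by
    by_contra hneg
    push Not at hneg
    nlinarith [mul_nonneg ha0 hTpos.le]
  -- the point y0
  have hd : 0 < T - c := by linarith
  set y0 := (b * T - x * c) / (T - c) with hy0
  have hy0mul : y0 * (T - c) = b * T - x * c := by
    rw [hy0]; field_simp
  have hby0 : b ≤ y0 := by
    rw [hy0, le_div_iff₀ hd]
    nlinarith [mul_nonneg hc0 (show 0 ≤ b - x by linarith)]
  have hTy0 : T ≤ y0 := by
    rcases le_or_gt y0 1 with h | h
    · -- G y0 ≤ s y0
      have h2 := G_conc3 (u := x) (v := b) (w := y0) hx0 hxb hby0 h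
      have hGb : G b = c + s * b := by linarith
      have hGx : G x = T + s * x := by rw [hT]; ring
      rw [hGb, hGx] at h2
      have h3 : (b - x) * (G y0 - s * y0) ≤ 0 := by nlinarith
      have h4 : G y0 - s * y0 ≤ 0 := by
        by_contra hneg
        push Not at hneg
        nlinarith [mul_pos (show 0 < b - x by linarith) hneg]
      have h5 := key' (x := x) (b := y0) hx0 (hxb.trans hby0) (by linarith) h
      rw [hGx] at h5
      have hy0pos : 0 < y0 := by linarith
      have h6 : y0 * T ≤ y0 * y0 := by nlinarith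
      exact le_of_mul_le_mul_left h6 hy0pos
    · have := G_le_one hx0 hx1
      rw [hT]
      nlinarith
  have h7 : T * (T - c) ≤ (b - a') * T := by
    have := mul_le_mul_of_nonneg_right hTy0 hd.le
    nlinarith
  have h8 : T - c ≤ b - a' := by
    have : T * (T - c) ≤ T * (b - a') := by linarith
    exact le_of_mul_le_mul_left this hTpos
  linarith

/-- Two-point inequality: the chord of `G` over `[a', b]` is at most `b - a'` below `G`. -/
lemma two_point {a' b x s : ℝ} (ha0 : 0 ≤ a') (hax : a' ≤ x) (hxb : x ≤ b) (hb1 : b ≤ 1)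
    (hslope : G a' - s * a' = G b - s * b) :
    G x ≤ G a' + s * (x - a') + (b - a') := by
  rcases le_total 0 s with hs | hs
  · have := two_point_pos ha0 hax hxb hb1 hs hslope
    linarith
  · have := two_point_pos (a' := 1 - b) (b := 1 - a') (x := 1 - x) (s := -s) (by linarith)
      (by linarith) (by linarith) (by linarith) (by linarith)
      (by rw [G_symm, G_symm]; linarith)
    rw [G_symm, G_symm] at this
    linarith

/-! ### `G` is in every class -/

lemma G_relaxed {m : ℕ} (hm : 1 ≤ m) : RelaxedConvex m G := by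
  intro x hx hmono
  have hmpos : (0 : ℝ) < m := by exact_mod_cast hm
  have h0 : ∀ i, i < m → x 0 ≤ x i := fun i hi => hmono 0 i (by omega) hi
  have h1 : ∀ i, i < m → x i ≤ x (m - 1) := fun i hi => hmono i (m - 1) (by omega) (by omega)
  set A := x 0 with hA
  set B := x (m - 1) with hB
  set S := (∑ i ∈ range m, x i) / m with hS
  have hA0 : 0 ≤ A := (hx 0 (by omega)).1
  have hB1 : B ≤ 1 := (hx (m - 1) (by omega)).2
  have hAS : A ≤ S := by
    rw [hS, le_div_iff₀ hmpos]
    calc A * m = ∑ i ∈ range m, A := by simp [mul_comm]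
      _ ≤ _ := sum_le_sum fun i hi => h0 i (mem_range.1 hi)
  have hSB : S ≤ B := by
    rw [hS, div_le_iff₀ hmpos]
    calc ∑ i ∈ range m, x i ≤ ∑ i ∈ range m, B := sum_le_sum fun i hi => h1 i (mem_range.1 hi)
      _ = B * m := by simp [mul_comm]
  have hAB : A ≤ B := hAS.trans hSB
  rcases eq_or_lt_of_le hAB with h | h
  · -- all points equal
    have hall : ∀ i ∈ range m, G (x i) = G A := by
      intro i hi
      have h2 := h0 i (mem_range.1 hi)
      have h3 := h1 i (mem_range.1 hi)
      congr 1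
      linarith
    have hSA : S = A := by linarith
    rw [sum_congr rfl hall, hSA]
    simp only [sum_const, card_range, nsmul_eq_mul]
    rw [mul_div_cancel_left₀ _ hmpos.ne']
    linarith
  · have hd : 0 < B - A := by linarith
    set s := (G B - G A) / (B - A) with hs
    have hsmul : s * (B - A) = G B - G A := by rw [hs]; field_simp
    have hchord : ∀ i ∈ range m, G A + s * (x i - A) ≤ G (x i) := by
      intro i hi
      have h2 := h0 i (mem_range.1 hi)
      have h3 := h1 i (mem_range.1 hi)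
      have h4 := G_conc3 (u := A) (v := x i) (w := B) hA0 h2 h3 hB1
      have h5 : (B - A) * (G A + s * (x i - A)) ≤ (B - A) * G (x i) := by
        have : (B - A) * (G A + s * (x i - A)) = (B - x i) * G A + (x i - A) * G B := by
          have : (B - A) * (G A + s * (x i - A)) = (B - A) * G A + (x i - A) * (s * (B - A)) := by
            ring
          rw [this, hsmul]; ring
        linarith
      exact le_of_mul_le_mul_left h5 hd
    have hsum := sum_le_sum hchord
    have e : ∑ i ∈ range m, (G A + s * (x i - A)) = m * (G A + s * (S - A)) := by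
      rw [sum_add_distrib, ← mul_sum, sum_sub_distrib]
      simp only [sum_const, card_range, nsmul_eq_mul]
      have : ∑ i ∈ range m, x i = m * S := by rw [hS]; field_simp
      rw [this]
      ring
    rw [e] at hsum
    have h6 := two_point (a' := A) (b := B) (x := S) (s := s) hA0 hAS hSB hB1
      (by linarith [hsmul])
    have h7 : G A + s * (S - A) ≤ (∑ i ∈ range m, G (x i)) / m := by
      rw [le_div_iff₀ hmpos]
      linarith
    linarith

lemma G_inClass {m : ℕ} (hm : 1 ≤ m) : InClass m G :=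
  ⟨G_zero.le, G_one.le, ⟨1, fun _ h0 h1 => G_le_one h0 h1⟩, G_relaxed hm⟩

/-! ### Uniform bound for functions in the class and basic facts on `F` -/

/-- The sequence with `n₀` zeros, then (if room) the value `z`, then the value `y`. -/
lemma two_block {m : ℕ} {f : ℝ → ℝ} (hf : InClass m f) {j : ℕ} (hj : j ≤ m) (hm : 1 ≤ m)
    {y : ℝ} (hy0 : 0 ≤ y) (hy1 : y ≤ 1) :
    f ((j : ℝ) / m * y) ≤ (j : ℝ) / m * f y + y := by
  have hmpos : (0 : ℝ) < m := by exact_mod_cast hm
  have h := hf.2.2.2 (fun i => if i < m - j then 0 else y)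
    (by
      intro i _
      split_ifs
      · exact ⟨le_rfl, zero_le_one⟩
      · exact ⟨hy0, hy1⟩)
    (by
      intro i i' hii' _
      split_ifs with h1 h2
      · exact le_rfl
      · exact hy0
      · omega
      · exact le_rfl)
  have hsum : ∀ g : ℝ → ℝ, ∑ i ∈ range m, g (if i < m - j then 0 else y)
      = ((m : ℝ) - j) * g 0 + j * g y := by
    intro g
    have hsplit : range m = range (m - j + j) := by congr 1; omega
    rw [hsplit, sum_range_add]
    have e1 : ∑ i ∈ range (m - j), g (if i < m - j then 0 else y) = ((m : ℝ) - j) * g 0 := by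
      rw [sum_congr rfl (g := fun _ => g 0)]
      · simp only [sum_const, card_range, nsmul_eq_mul]
        rw [Nat.cast_sub hj]
      · intro i hi
        rw [if_pos (mem_range.1 hi)]
    have e2 : ∑ i ∈ range j, g (if m - j + i < m - j then 0 else y) = j * g y := by
      rw [sum_congr rfl (g := fun _ => g y)]
      · simp
      · intro i hi
        rw [if_neg (by omega)]
    rw [e1, e2]
  have hs1 := hsum id
  simp only [id] at hs1
  have hs2 := hsum f
  rw [hs1, hs2] at h
  have hle : (if m - 1 < m - j then (0 : ℝ) else y) - (if 0 < m - j then (0 : ℝ) else y) ≤ y := by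
    split_ifs <;> linarith
  have e : (((m : ℝ) - j) * 0 + j * y) / m = (j : ℝ) / m * y := by ring
  rw [e] at h
  have h2 : (((m : ℝ) - j) * f 0 + j * f y) / m ≤ (j : ℝ) / m * f y := by
    rw [div_le_iff₀ hmpos]
    have h3 : (0 : ℝ) ≤ (m : ℝ) - j := by
      have : (j : ℝ) ≤ m := by exact_mod_cast hj
      linarith
    have h4 := mul_nonneg h3 (show 0 ≤ -f 0 by linarith [hf.1])
    have e5 : (j : ℝ) / m * f y * m = j * f y := by field_simp
    rw [e5]
    linarith
  linarith

/-- One remainder `z`, `q` ones, the rest zeros. -/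
lemma one_remainder {m : ℕ} {f : ℝ → ℝ} (hf : InClass m f) {q : ℕ} (hq : q + 1 ≤ m)
    {z : ℝ} (hz0 : 0 ≤ z) (hz1 : z ≤ 1) :
    f ((z + q) / m) ≤ f z / m + 1 := by
  have hmpos : (0 : ℝ) < m := by
    have : 1 ≤ m := by omega
    exact_mod_cast this
  have h := hf.2.2.2 (fun i => if i < m - 1 - q then 0 else if i < m - q then z else 1)
    (by
      intro i _
      split_ifs
      · exact ⟨le_rfl, zero_le_one⟩
      · exact ⟨hz0, hz1⟩
      · exact ⟨zero_le_one, le_rfl⟩)
    (by
      intro i i' hii' _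
      split_ifs with h1 h2 h3 h4 h5 h6 h7
      all_goals first | omega | linarith)
  have hsum : ∀ g : ℝ → ℝ,
      ∑ i ∈ range m, g (if i < m - 1 - q then 0 else if i < m - q then z else 1)
      = ((m : ℝ) - 1 - q) * g 0 + (g z + q * g 1) := by
    intro g
    have hsplit : range m = range (m - 1 - q + (1 + q)) := by congr 1; omega
    rw [hsplit, sum_range_add, sum_range_add]
    have e1 : ∑ i ∈ range (m - 1 - q), g (if i < m - 1 - q then 0 else if i < m - q then z else 1)
        = ((m : ℝ) - 1 - q) * g 0 := by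
      rw [sum_congr rfl (g := fun _ => g 0)]
      · simp only [sum_const, card_range, nsmul_eq_mul]
        rw [Nat.cast_sub (by omega), Nat.cast_sub (by omega)]
        push_cast
        ring
      · intro i hi
        rw [if_pos (mem_range.1 hi)]
    have e2 : ∑ i ∈ range 1,
        g (if m - 1 - q + i < m - 1 - q then 0 else if m - 1 - q + i < m - q then z else 1)
        = g z := by
      rw [sum_range_one, if_neg (by omega), if_pos (by omega)]
    have e3 : ∑ i ∈ range q, g (if m - 1 - q + (1 + i) < m - 1 - q then 0 else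
        if m - 1 - q + (1 + i) < m - q then z else 1) = q * g 1 := by
      rw [sum_congr rfl (g := fun _ => g 1)]
      · simp
      · intro i hi
        rw [if_neg (by omega), if_neg (by omega)]
    rw [e1, e2, e3]
  have hs1 := hsum id
  simp only [id] at hs1
  have hs2 := hsum f
  rw [hs1, hs2] at h
  have hle : ((if m - 1 < m - 1 - q then (0 : ℝ) else if m - 1 < m - q then z else 1) -
      (if 0 < m - 1 - q then (0 : ℝ) else if 0 < m - q then z else 1)) ≤ 1 := by
    split_ifs <;> linarith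
  have e : (((m : ℝ) - 1 - q) * 0 + (z + q * 1)) / m = (z + q) / m := by ring
  rw [e] at h
  have h2 : (((m : ℝ) - 1 - q) * f 0 + (f z + q * f 1)) / m ≤ f z / m := by
    apply div_le_div_of_nonneg_right _ hmpos.le
    have h3 : (0 : ℝ) ≤ (m : ℝ) - 1 - q := by
      have : ((q + 1 : ℕ) : ℝ) ≤ m := by exact_mod_cast hq
      push_cast at this
      linarith
    have h4 := mul_nonneg h3 (show 0 ≤ -f 0 by linarith [hf.1])
    have h5 := mul_nonneg (show (0 : ℝ) ≤ q by positivity) (show 0 ≤ -f 1 by linarith [hf.2.1])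
    linarith
  linarith

/-- Functions in the class are at most `1 + 2/m` on `[0,1]`. -/
lemma inClass_le {m : ℕ} (hm : 2 ≤ m) {f : ℝ → ℝ} (hf : InClass m f) {y : ℝ} (hy0 : 0 ≤ y)
    (hy1 : y ≤ 1) : f y ≤ 1 + 2 / m := by
  have hmpos : (0 : ℝ) < m := by positivity
  have hm2 : (2 : ℝ) ≤ m := by exact_mod_cast hm
  obtain ⟨M, hM⟩ := hf.2.2.1
  -- step: an upper bound `B ≥ 0` yields the upper bound `B/m+1`
  have step : ∀ B : ℝ, 0 ≤ B → (∀ x : ℝ, 0 ≤ x → x ≤ 1 → f x ≤ B) →
      ∀ x : ℝ, 0 ≤ x → x ≤ 1 → f x ≤ B / m + 1 := by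
    intro B hB hfB x hx0 hx1
    rcases eq_or_lt_of_le hx1 with h | h
    · subst h
      have := hf.2.1
      have : 0 ≤ B / m := by positivity
      linarith
    · set q := ⌊(m : ℝ) * x⌋₊ with hq
      have hmx : 0 ≤ (m : ℝ) * x := by positivity
      have h1 : (q : ℝ) ≤ m * x := Nat.floor_le hmx
      have h2 : (m : ℝ) * x < q + 1 := Nat.lt_floor_add_one _
      have h3 : q < m := by
        have : (q : ℝ) < m := by nlinarith
        exact_mod_cast this
      have h4 := one_remainder hf (q := q) (by omega) (z := m * x - q) (by linarith) (by linarith)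
      have e : ((m : ℝ) * x - q + q) / m = x := by field_simp; ring
      rw [e] at h4
      have h5 := hfB (m * x - q) (by linarith) (by linarith)
      have h6 : f (m * x - q) / m ≤ B / m := div_le_div_of_nonneg_right h5 hmpos.le
      linarith
  -- iterate
  set B0 := max M 0 with hB0
  have hB0n : 0 ≤ B0 := le_max_right _ _
  set L : ℝ := 1 + 2 / m with hL
  have hLm : L / m + 1 ≤ L := by
    rw [hL]
    rw [add_div, div_div]
    have : 1 / (m : ℝ) + 2 / (m * m) ≤ 2 / m := by
      rw [div_add_div _ _ hmpos.ne' (by positivity), div_le_div_iff₀ (by positivity) hmpos]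
      nlinarith [mul_pos hmpos hmpos, mul_nonneg (mul_pos hmpos hmpos).le
        (show 0 ≤ (m : ℝ) - 2 by linarith)]
    linarith
  have iter : ∀ n : ℕ, ∀ x : ℝ, 0 ≤ x → x ≤ 1 → f x ≤ L + B0 * (1 / m) ^ n := by
    intro n
    induction n with
    | zero =>
      intro x hx0 hx1
      have := (hM x hx0 hx1).trans (le_max_left M 0)
      have hLn : 0 ≤ L := by positivity
      simp only [pow_zero, mul_one]
      linarith
    | succ n ih =>
      intro x hx0 hx1
      have hLn : 0 ≤ L := by positivity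
      have := step (L + B0 * (1 / m) ^ n) (by positivity) ih x hx0 hx1
      have e : (L + B0 * (1 / (m : ℝ)) ^ n) / m + 1 = (L / m + 1) + B0 * (1 / m) ^ (n + 1) := by
        rw [pow_succ]; ring
      rw [e] at this
      linarith
  -- limit
  by_contra hcon
  push Not at hcon
  have hd : 0 < f y - L := by linarith
  have hlim : Filter.Tendsto (fun n : ℕ => B0 * (1 / (m : ℝ)) ^ n) Filter.atTop (nhds (B0 * 0)) := by
    apply Filter.Tendsto.const_mul
    apply tendsto_pow_atTop_nhds_zero_of_lt_one (by positivity)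
    rw [div_lt_one hmpos]
    linarith
  rw [mul_zero] at hlim
  obtain ⟨n, hn⟩ := (hlim.eventually (gt_mem_nhds hd)).exists
  have := iter n y hy0 hy1
  linarith

lemma F_bdd {m : ℕ} (hm : 2 ≤ m) {x : ℝ} (h0 : 0 ≤ x) (h1 : x ≤ 1) :
    BddAbove {y : ℝ | ∃ f : ℝ → ℝ, InClass m f ∧ y = f x} := by
  refine ⟨1 + 2 / m, ?_⟩
  rintro _ ⟨f, hf, rfl⟩
  exact inClass_le hm hf h0 h1

lemma le_F {m : ℕ} (hm : 2 ≤ m) {f : ℝ → ℝ} (hf : InClass m f) {x : ℝ} (h0 : 0 ≤ x)
    (h1 : x ≤ 1) : f x ≤ F m x :=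
  le_csSup (F_bdd hm h0 h1) ⟨f, hf, rfl⟩

lemma F_le {m : ℕ} (hm : 1 ≤ m) {x c : ℝ} (h : ∀ f : ℝ → ℝ, InClass m f → f x ≤ c) :
    F m x ≤ c := by
  have hne : ({y : ℝ | ∃ f : ℝ → ℝ, InClass m f ∧ y = f x}).Nonempty :=
    ⟨G x, G, G_inClass hm, rfl⟩
  apply csSup_le hne
  rintro _ ⟨f, hf, rfl⟩
  exact h f hf

/-- `F_m` itself is in the class. -/
lemma F_inClass {m : ℕ} (hm : 2 ≤ m) : InClass m (F m) := by
  have hmpos : (0 : ℝ) < m := by positivity
  refine ⟨F_le (by omega) fun f hf => hf.1, F_le (by omega) fun f hf => hf.2.1,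
    ⟨1 + 2 / m, fun x h0 h1 => F_le (by omega) fun f hf => inClass_le hm hf h0 h1⟩, ?_⟩
  intro x hx hmono
  apply F_le (by omega)
  intro f hf
  have h := hf.2.2.2 x hx hmono
  have h2 : (∑ i ∈ range m, f (x i)) / m ≤ (∑ i ∈ range m, F m (x i)) / m := by
    apply div_le_div_of_nonneg_right _ hmpos.le
    exact sum_le_sum fun i hi =>
      le_F hm hf (hx i (mem_range.1 hi)).1 (hx i (mem_range.1 hi)).2
  linarith

/-- The reflection of a function in the class is in the class. -/
lemma reflect {m : ℕ} (hm : 1 ≤ m) {f : ℝ → ℝ} (hf : InClass m f) :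
    InClass m (fun x => f (1 - x)) := by
  have hmpos : (0 : ℝ) < m := by positivity
  obtain ⟨h0, h1, ⟨M, hM⟩, hr⟩ := hf
  refine ⟨by simpa using h1, by simpa using h0,
    ⟨M, fun x hx0 hx1 => hM _ (by linarith) (by linarith)⟩, ?_⟩
  intro x hx hmono
  have h := hr (fun i => 1 - x (m - 1 - i))
    (by
      intro i hi
      have := hx (m - 1 - i) (by omega)
      constructor <;> linarith [this.1, this.2])
    (by
      intro i j hij hj
      have := hmono (m - 1 - j) (m - 1 - i) (by omega) (by omega)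
      linarith)
  have e1 : ∑ i ∈ range m, (1 - x (m - 1 - i)) = ∑ i ∈ range m, (1 - x i) :=
    sum_range_reflect (fun i => 1 - x i) m
  have e2 : ∑ i ∈ range m, f (1 - x (m - 1 - i)) = ∑ i ∈ range m, f (1 - x i) :=
    sum_range_reflect (fun i => f (1 - x i)) m
  rw [e1, e2] at h
  have e3 : (∑ i ∈ range m, (1 - x i)) / (m : ℝ) = 1 - (∑ i ∈ range m, x i) / m := by
    rw [sum_sub_distrib]
    simp only [sum_const, card_range, nsmul_eq_mul, mul_one]
    field_simp
  rw [e3] at h
  have e4 : m - 1 - (m - 1) = 0 := by omega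
  have e5 : m - 1 - 0 = m - 1 := by omega
  simp only [e4, e5] at h
  linarith

/-! ### The upper bound -/

/-- Bernoulli: `2 ≤ (1 + 1/(k+1))^(k+1)`. -/
lemma two_le_pow (k : ℕ) : (2 : ℝ) ≤ (1 + 1 / ((k : ℝ) + 1)) ^ (k + 1) := by
  have := one_add_mul_le_pow (a := 1 / ((k : ℝ) + 1)) (by
    have : (0 : ℝ) ≤ 1 / ((k : ℝ) + 1) := by positivity
    linarith) (k + 1)
  have e : (((k + 1 : ℕ) : ℝ)) * (1 / ((k : ℝ) + 1)) = 1 := by
    push_cast; field_simp
  linarith

/-- The main upper bound in power form. -/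
lemma upper_pow {m : ℕ} (hm : 3 ≤ m) {f : ℝ → ℝ} (hf : InClass m f) (k : ℕ) :
    ∀ r : ℝ, 0 ≤ r → r ≤ 1 → f (r ^ (k + 1)) ≤ (k + 1) * r ^ k + 6 / m := by
  have hmpos : (0 : ℝ) < m := by positivity
  have hm3 : (3 : ℝ) ≤ m := by exact_mod_cast hm
  induction k with
  | zero =>
    intro r hr0 hr1
    have := inClass_le (by omega) hf (y := r ^ (0 + 1)) (by positivity) (by simpa using hr1)
    have h2 : 2 / (m : ℝ) ≤ 6 / m := by
      apply div_le_div_of_nonneg_right (by norm_num) hmpos.le
    simp only [Nat.cast_zero, zero_add, pow_zero, mul_one] at this ⊢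
    linarith
  | succ k ih =>
    intro r hr0 hr1
    have hk1 : (0 : ℝ) < (k : ℝ) + 1 := by positivity
    rcases eq_or_lt_of_le hr0 with h0 | hrpos
    · subst h0
      rw [zero_pow (by omega), zero_pow (by omega)]
      have := hf.1
      have : 0 ≤ 6 / (m : ℝ) := by positivity
      linarith
    obtain ⟨s, hs0, hs⟩ := exists_root k (x := r ^ (k + 1 + 1)) (by positivity)
    rcases le_total (1 / 2) r with hr | hr
    · -- `r` large: use the index `k`
      have hs1 : s ≤ 1 := by
        by_contra hcon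
        push Not at hcon
        have h1 : 1 < s ^ (k + 1) := one_lt_pow₀ hcon (by omega)
        have h2 : r ^ (k + 1 + 1) ≤ 1 := pow_le_one₀ hr0 hr1
        linarith
      have h1 := ih s hs0 hs1
      rw [hs] at h1
      -- `(k+1) s^k ≤ (k+2) r^(k+1)`
      have hspos : 0 < s := by
        rcases eq_or_lt_of_le hs0 with h | h
        · rw [← h, zero_pow (by omega)] at hs
          have : 0 < r ^ (k + 1 + 1) := by positivity
          linarith
        · exact h
      -- `(k+1) r ≤ (k+2) s` since `(k+1)^(k+1) r^(k+1) ≤ (k+2)^(k+1) s^(k+1)`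
      have h2 : r ≤ (1 + 1 / ((k : ℝ) + 1)) * s := by
        by_contra hcon
        push Not at hcon
        have h3 := pow_lt_pow_left₀ hcon (by positivity) (show k + 1 ≠ 0 by omega)
        rw [mul_pow, hs] at h3
        have h4 := two_le_pow k
        have h5 : 0 < r ^ (k + 1) := by positivity
        have h6 : (2 : ℝ) * r ^ (k + 1 + 1) ≤ (1 + 1 / ((k : ℝ) + 1)) ^ (k + 1) * r ^ (k + 1 + 1) :=
          mul_le_mul_of_nonneg_right h4 (by positivity)
        have h7 : r ^ (k + 1 + 1) = r ^ (k + 1) * r := pow_succ _ _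
        nlinarith
      have h3 : (k + 1) * s ^ k ≤ (k + 2) * r ^ (k + 1) := by
        -- multiply by s:  (k+1) s^(k+1) = (k+1) r^(k+2) ≤ (k+2) r^(k+1) s
        have h4 : s * ((k + 1) * s ^ k) ≤ s * ((k + 2) * r ^ (k + 1)) := by
          have e1 : s * (((k : ℝ) + 1) * s ^ k) = (k + 1) * s ^ (k + 1) := by ring
          rw [e1, hs]
          have h5 : ((k : ℝ) + 1) * r ≤ (k + 2) * s := by
            have := mul_le_mul_of_nonneg_left h2 hk1.le
            have e2 : ((k : ℝ) + 1) * ((1 + 1 / ((k : ℝ) + 1)) * s) = (k + 2) * s := by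
              field_simp; ring
            linarith
          have h6 := mul_le_mul_of_nonneg_left h5 (show 0 ≤ r ^ (k + 1) by positivity)
          calc ((k : ℝ) + 1) * r ^ (k + 1 + 1) = r ^ (k + 1) * ((k + 1) * r) := by ring
            _ ≤ _ := h6
            _ = _ := by ring
        exact le_of_mul_le_mul_left h4 hspos
      push_cast
      linarith
    · -- `r ≤ 1/2`
      set j := ⌈(m : ℝ) * r⌉₊ with hj
      have hmr : 0 < (m : ℝ) * r := by positivity
      have hj1 : (m : ℝ) * r ≤ j := Nat.le_ceil _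
      have hj2 : (j : ℝ) < m * r + 1 := Nat.ceil_lt_add_one hmr.le
      have hjm : j ≤ m := by
        have : (j : ℝ) < m + 1 := by nlinarith
        have : j < m + 1 := by exact_mod_cast this
        omega
      set l : ℝ := (j : ℝ) / m with hl
      have hrl : r ≤ l := by rw [hl, le_div_iff₀ hmpos]; linarith
      have hlpos : 0 < l := by linarith
      have hl1 : l ≤ r + 1 / m := by
        rw [hl, div_le_iff₀ hmpos]
        have : (r + 1 / (m : ℝ)) * m = m * r + 1 := by field_simp
        linarith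
      obtain ⟨t, ht0, ht⟩ := exists_root k (x := r ^ (k + 2) / l) (by positivity)
      have htpos : 0 < t := by
        rcases eq_or_lt_of_le ht0 with h | h
        · rw [← h, zero_pow (by omega)] at ht
          have : 0 < r ^ (k + 2) / l := by positivity
          linarith
        · exact h
      have htl : l * t ^ (k + 1) = r ^ (k + 2) := by rw [ht]; field_simp
      have htr : t ≤ r := by
        by_contra hcon
        push Not at hcon
        have h1 := pow_lt_pow_left₀ hcon hr0 (show k + 1 ≠ 0 by omega)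
        have h2 : r * r ^ (k + 1) < l * t ^ (k + 1) := by
          have h5 : 0 < r ^ (k + 1) := by positivity
          nlinarith
        rw [htl] at h2
        have e : r ^ (k + 2) = r * r ^ (k + 1) := by ring
        linarith
      have ht1 : t ≤ 1 := htr.trans hr1
      have h1 := two_block hf hjm (by omega) (y := t ^ (k + 1)) (by positivity)
        (pow_le_one₀ ht0 ht1)
      rw [← hl, htl] at h1
      have h2 := ih t ht0 ht1
      have h3 : l * f (t ^ (k + 1)) ≤ l * ((k + 1) * t ^ k + 6 / m) :=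
        mul_le_mul_of_nonneg_left h2 hlpos.le
      -- `l t^k (k+1) ≤ r^(k+1) (k+1) + r^k (l - r)`
      have h4 : l * ((k + 1) * t ^ k) ≤ (k + 1) * r ^ (k + 1) + r ^ k * (l - r) := by
        have hB := one_add_mul_le_pow (a := r / t - 1) (by
          have : 0 < r / t := by positivity
          linarith) (k + 1)
        have e1 : (1 + (r / t - 1)) ^ (k + 1) = r ^ (k + 1) / t ^ (k + 1) := by
          rw [← div_pow]; congr 1; ring
        rw [e1] at hB
        have e2 : r ^ (k + 1) / t ^ (k + 1) = l / r := by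
          rw [div_eq_div_iff (by positivity) hrpos.ne', htl]; ring
        rw [e2] at hB
        push_cast at hB
        -- multiply by r^(k+1)
        have h5 := mul_le_mul_of_nonneg_left hB (show 0 ≤ r ^ (k + 1) by positivity)
        have e3 : r ^ (k + 1) * (l / r) = r ^ k * l := by
          rw [pow_succ]; field_simp
        have e4 : l * t ^ k = r ^ (k + 1) * (r / t) := by
          have : l * t ^ k * t = r ^ (k + 1) * r := by
            rw [mul_assoc, ← pow_succ, htl]; ring
          field_simp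
          linarith
        have e5 : l * ((k + 1) * t ^ k) = (k + 1) * (r ^ (k + 1) * (r / t)) := by
          rw [← e4]; ring
        rw [e5]
        rw [e3] at h5
        have e6 : r ^ k * (l - r) = r ^ k * l - r ^ (k + 1) := by ring
        rw [e6]
        nlinarith
      have h5 : t ^ (k + 1) ≤ r ^ (k + 1) := pow_le_pow_left₀ ht0 htr _
      have h6 : r ^ k * (l - r) ≤ 1 / m := by
        have : r ^ k ≤ 1 := pow_le_one₀ hr0 hr1
        have h7 : 0 ≤ l - r := by linarith
        nlinarith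
      have h7 : l * (6 / m) + 1 / m ≤ 6 / (m : ℝ) := by
        have h8 : l ≤ 1 / 2 + 1 / 3 := by
          have : 1 / (m : ℝ) ≤ 1 / 3 := one_div_le_one_div_of_le (by norm_num) hm3
          linarith
        have h9 : 0 < 1 / (m : ℝ) := by positivity
        have e : 6 / (m : ℝ) = 6 * (1 / m) := by ring
        rw [e]
        nlinarith
      have e : l * ((k + 1) * t ^ k + 6 / m) = l * ((k + 1) * t ^ k) + l * (6 / m) := by ring
      rw [e] at h3
      push_cast
      have e2 : r ^ (k + 1 + 1) = r ^ (k + 2) := rfl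
      rw [e2]
      linarith

lemma upper_a {m : ℕ} (hm3 : 3 ≤ m) {f : ℝ → ℝ} (hf : InClass m f) (k : ℕ) {x : ℝ}
    (h0 : 0 ≤ x) (h1 : x ≤ 1) : f x ≤ a k x + 6 / m := by
  obtain ⟨r, hr0, hr⟩ := exists_root k h0
  have hr1 : r ≤ 1 := by
    by_contra hcon
    push Not at hcon
    have := one_lt_pow₀ hcon (show k + 1 ≠ 0 by omega)
    linarith
  rw [← hr, a_pow k hr0]
  exact upper_pow hm3 hf k r hr0 hr1

lemma upper {m : ℕ} (hm : 2 ≤ m) {f : ℝ → ℝ} (hf : InClass m f) {x : ℝ}
    (h0 : 0 ≤ x) (h1 : x ≤ 1) : f x ≤ G x + 6 / m := by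
  rcases eq_or_lt_of_le hm with h | h
  · have h2 := inClass_le hm hf h0 h1
    have h3 := G_nonneg h0 h1
    subst h
    norm_num at h2 ⊢
    linarith
  · have : f x - 6 / m ≤ G x := by
      apply le_G
      · intro k
        have := upper_a h hf k h0 h1
        linarith
      · intro k
        have := upper_a h (reflect (by omega) hf) k (x := 1 - x) (by linarith) (by linarith)
        simp only [sub_sub_cancel] at this
        linarith
    linarith

/-! ### Where the infimum is attained, and exact values -/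

/-- A convexity argument for `s log s`. -/
lemma conv_aux {c s t th : ℝ} (hs : 0 ≤ s) (hth0 : 0 < th) (hth1 : th ≤ 1)
    (ht : t = 1 + th * (s - 1)) (h : (1 - t) * c ≤ t * Real.log t) :
    (1 - s) * c ≤ s * Real.log s := by
  have hconv := Real.convexOn_mul_log.2 (show (1 : ℝ) ∈ Set.Ici (0 : ℝ) by simp)
    (show s ∈ Set.Ici (0 : ℝ) from hs) (show (0 : ℝ) ≤ 1 - th by linarith) hth0.le
    (show 1 - th + th = 1 by ring)
  simp only [smul_eq_mul, Real.log_one, mul_zero, zero_add] at hconv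
  have e : (1 - th) * 1 + th * s = t := by rw [ht]; ring
  rw [e] at hconv
  have h2 : (1 - t) * c = th * ((1 - s) * c) := by rw [ht]; ring
  rw [h2] at h
  exact le_of_mul_le_mul_left (h.trans hconv) hth0

lemma exact_aux (k i : ℕ) {r : ℝ} (h1 : (((k : ℝ) + 1) / ((k : ℝ) + 2)) ^ (k + 2) ≤ r)
    (h2 : r ≤ ((k : ℝ) / ((k : ℝ) + 1)) ^ k) : ((k : ℝ) + 1) * r ^ k ≤ a i (r ^ (k + 1)) := by
  have hk1 : (0 : ℝ) < (k : ℝ) + 1 := by positivity
  have hk2 : (0 : ℝ) < (k : ℝ) + 2 := by positivity
  have hi1 : (0 : ℝ) < (i : ℝ) + 1 := by positivity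
  have hr : 0 < r := lt_of_lt_of_le (by positivity) h1
  -- logarithmic forms of the hypotheses
  have hL1 : ((k : ℝ) + 2) * Real.log (((k : ℝ) + 1) / ((k : ℝ) + 2)) ≤ Real.log r := by
    have := Real.log_le_log (by positivity) h1
    rw [Real.log_pow] at this
    push_cast at this
    exact this
  have hL2 : Real.log r ≤ (k : ℝ) * Real.log ((k : ℝ) / ((k : ℝ) + 1)) := by
    have := Real.log_le_log hr h2
    rw [Real.log_pow] at this
    exact this
  -- main inequality
  have main : (1 - ((i : ℝ) + 1) / ((k : ℝ) + 1)) * Real.log r ≤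
      ((i : ℝ) + 1) / ((k : ℝ) + 1) * Real.log (((i : ℝ) + 1) / ((k : ℝ) + 1)) := by
    rcases lt_trichotomy i k with hik | hik | hik
    · -- `i < k`, compare with `s₀ = k/(k+1)`
      have hik' : (i : ℝ) + 1 ≤ k := by exact_mod_cast hik
      have hki : (0 : ℝ) < (k : ℝ) - i := by linarith
      apply conv_aux (t := (k : ℝ) / ((k : ℝ) + 1)) (th := 1 / ((k : ℝ) - i)) (by positivity)
        (by positivity)
      · rw [div_le_one hki]; linarith
      · field_simp
        ring
      · have e : (1 - (k : ℝ) / ((k : ℝ) + 1)) = 1 / ((k : ℝ) + 1) := by field_simp; ring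
        rw [e]
        have := mul_le_mul_of_nonneg_left hL2 (show 0 ≤ 1 / ((k : ℝ) + 1) by positivity)
        calc _ ≤ _ := this
          _ = _ := by ring
    · subst hik
      rw [div_self hk1.ne']
      simp
    · -- `i > k`, compare with `s₁ = (k+2)/(k+1)`
      have hik' : (k : ℝ) + 1 ≤ i := by exact_mod_cast hik
      have hki : (0 : ℝ) < (i : ℝ) - k := by linarith
      apply conv_aux (t := ((k : ℝ) + 2) / ((k : ℝ) + 1)) (th := 1 / ((i : ℝ) - k)) (by positivity)
        (by positivity)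
      · rw [div_le_one hki]; linarith
      · field_simp
        ring
      · have e : (1 - ((k : ℝ) + 2) / ((k : ℝ) + 1)) = - (1 / ((k : ℝ) + 1)) := by
          field_simp; ring
        rw [e]
        have e2 : Real.log (((k : ℝ) + 1) / ((k : ℝ) + 2)) =
            - Real.log (((k : ℝ) + 2) / ((k : ℝ) + 1)) := by
          rw [← Real.log_inv, inv_div]
        rw [e2] at hL1
        have := mul_le_mul_of_nonneg_left hL1 (show 0 ≤ 1 / ((k : ℝ) + 1) by positivity)
        calc -(1 / ((k : ℝ) + 1)) * Real.log r = - (1 / ((k : ℝ) + 1) * Real.log r) := by ring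
          _ ≤ - (1 / ((k : ℝ) + 1) * (((k : ℝ) + 2) * -Real.log (((k : ℝ) + 2) / ((k : ℝ) + 1)))) :=
            by linarith
          _ = _ := by ring
  -- divide by `s`
  have main2 : (((k : ℝ) - i) / ((i : ℝ) + 1)) * Real.log r ≤
      Real.log ((i : ℝ) + 1) - Real.log ((k : ℝ) + 1) := by
    rw [← Real.log_div hi1.ne' hk1.ne']
    have := mul_le_mul_of_nonneg_left main (show 0 ≤ ((k : ℝ) + 1) / ((i : ℝ) + 1) by positivity)
    calc _ = ((k : ℝ) + 1) / ((i : ℝ) + 1) * ((1 - ((i : ℝ) + 1) / ((k : ℝ) + 1)) * Real.log r) := by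
          field_simp; ring
      _ ≤ _ := this
      _ = _ := by field_simp
  -- exponentiate
  unfold a
  have hpos1 : 0 < ((k : ℝ) + 1) * r ^ k := by positivity
  have hpos2 : 0 < ((i : ℝ) + 1) * (r ^ (k + 1)) ^ ((i : ℝ) / ((i : ℝ) + 1)) := by positivity
  rw [← Real.log_le_log_iff hpos1 hpos2]
  rw [Real.log_mul hk1.ne' (by positivity), Real.log_mul hi1.ne' (by positivity),
    Real.log_pow, Real.log_rpow (by positivity), Real.log_pow]
  have e : (k : ℝ) * Real.log r - (i : ℝ) / ((i : ℝ) + 1) * (((k + 1 : ℕ) : ℝ) * Real.log r) =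
      (((k : ℝ) - i) / ((i : ℝ) + 1)) * Real.log r := by
    push_cast
    field_simp
    ring
  linarith

/-- On the `k`-th interval the infimum defining `G` is attained by the `k`-th term. -/
lemma G_eq_pow (k : ℕ) {r : ℝ} (h1 : (((k : ℝ) + 1) / ((k : ℝ) + 2)) ^ (k + 2) ≤ r)
    (h2 : r ≤ ((k : ℝ) / ((k : ℝ) + 1)) ^ k) (h3 : r ^ (k + 1) ≤ 3 / 4) :
    G (r ^ (k + 1)) = ((k : ℝ) + 1) * r ^ k := by
  have hr : 0 < r := lt_of_lt_of_le (by positivity) h1
  have hx0 : 0 ≤ r ^ (k + 1) := by positivity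
  apply le_antisymm
  · have := G_le k hx0 (by linarith)
    rwa [a_pow k hr.le] at this
  · apply le_G
    · intro i
      exact exact_aux k i h1 h2
    · intro i
      have h4 := exact_aux k 0 h1 h2
      rw [a_zero] at h4
      have h5 := a_lower i (v := 1 - r ^ (k + 1)) (by linarith)
      rw [min_eq_left (by linarith)] at h5
      linarith

/-- `F_m ((j/m)^(k+1)) ≤ (k+1) (j/m)^k`. -/
lemma F_pow_le {m : ℕ} (hm : 2 ≤ m) {f : ℝ → ℝ} (hf : InClass m f) {j : ℕ} (hj : j ≤ m)
    (k : ℕ) : f (((j : ℝ) / m) ^ (k + 1)) ≤ (k + 1) * ((j : ℝ) / m) ^ k := by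
  have hmpos : (0 : ℝ) < m := by positivity
  have hr0 : 0 ≤ (j : ℝ) / m := by positivity
  have hr1 : (j : ℝ) / m ≤ 1 := by
    rw [div_le_one hmpos]; exact_mod_cast hj
  induction k with
  | zero =>
    have := two_block hf hj (by omega) (y := 1) zero_le_one le_rfl
    have h1 := hf.2.1
    have h2 : (j : ℝ) / m * f 1 ≤ 0 := mul_nonpos_of_nonneg_of_nonpos hr0 h1
    simp only [zero_add, pow_one, Nat.cast_zero, pow_zero, mul_one] at this ⊢
    linarith
  | succ k ih =>
    have := two_block hf hj (by omega) (y := ((j : ℝ) / m) ^ (k + 1)) (by positivity)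
      (pow_le_one₀ hr0 hr1)
    have e : (j : ℝ) / m * ((j : ℝ) / m) ^ (k + 1) = ((j : ℝ) / m) ^ (k + 1 + 1) := by ring
    rw [e] at this
    have h2 := mul_le_mul_of_nonneg_left ih hr0
    have e2 : (j : ℝ) / m * (((k : ℝ) + 1) * ((j : ℝ) / m) ^ k) =
        ((k : ℝ) + 1) * ((j : ℝ) / m) ^ (k + 1) := by ring
    push_cast
    linarith

lemma F_symm {m : ℕ} (hm : 2 ≤ m) {x : ℝ} (h0 : 0 ≤ x) (h1 : x ≤ 1) :
    F m (1 - x) = F m x := by
  apply le_antisymm
  · apply F_le (by omega)
    intro f hf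
    have := le_F hm (reflect (by omega) hf) h0 h1
    exact this
  · apply F_le (by omega)
    intro f hf
    have := le_F hm (reflect (by omega) hf) (x := 1 - x) (by linarith) (by linarith)
    simpa using this

/-! ### Sharpness of the rate `1/m` -/

lemma w_le_G {x : ℝ} (h0 : 0 ≤ x) (h1 : x ≤ 1) : min 1 (min (4 * x) (4 * (1 - x))) ≤ G x := by
  apply le_G
  · intro k
    refine le_trans (le_min (min_le_left _ _) ?_) (a_lower k h0)
    exact (min_le_right _ _).trans (min_le_left _ _)
  · intro k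
    refine le_trans (le_min (min_le_left _ _) ?_) (a_lower k (v := 1 - x) (by linarith))
    exact (min_le_right _ _).trans (min_le_right _ _)

lemma avg_lin {m : ℕ} (hm : 1 ≤ m) {x g : ℕ → ℝ} {p q : ℝ}
    (h : ∀ i, i < m → p + q * x i ≤ g i) :
    p + q * ((∑ i ∈ range m, x i) / m) ≤ (∑ i ∈ range m, g i) / m := by
  have hmpos : (0 : ℝ) < m := by positivity
  have hs : ∑ i ∈ range m, (p + q * x i) ≤ ∑ i ∈ range m, g i :=
    sum_le_sum fun i hi => h i (mem_range.1 hi)
  rw [sum_add_distrib, ← mul_sum] at hs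
  simp only [sum_const, card_range, nsmul_eq_mul] at hs
  rw [le_div_iff₀ hmpos]
  have e : (p + q * ((∑ i ∈ range m, x i) / m)) * m = m * p + q * ∑ i ∈ range m, x i := by
    field_simp
  linarith

/-- The tent of height `1/2` and slope `m` centred between `⌊m/2⌋/m` and `(⌊m/2⌋+1)/m`. -/
noncomputable def tent (m : ℕ) (x : ℝ) : ℝ :=
  max 0 (1 / 2 - |(m : ℝ) * x - (((m / 2 : ℕ) : ℝ) + 1 / 2)|)

lemma tent_nonneg (m : ℕ) (x : ℝ) : 0 ≤ tent m x := le_max_left _ _

lemma tent_le_half (m : ℕ) (x : ℝ) : tent m x ≤ 1 / 2 := by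
  apply max_le (by norm_num)
  linarith [abs_nonneg ((m : ℝ) * x - (((m / 2 : ℕ) : ℝ) + 1 / 2))]

lemma tent_le (m : ℕ) (x : ℝ) (n : ℕ) : tent m x ≤ |(m : ℝ) * x - n| := by
  apply max_le (abs_nonneg _)
  have h1 : (1 : ℝ) / 2 ≤ |(n : ℝ) - (((m / 2 : ℕ) : ℝ) + 1 / 2)| := by
    rcases le_or_gt n (m / 2) with h | h
    · have : (n : ℝ) ≤ ((m / 2 : ℕ) : ℝ) := by exact_mod_cast h
      rw [abs_of_nonpos (by linarith)]
      linarith
    · have : ((m / 2 : ℕ) : ℝ) + 1 ≤ n := by exact_mod_cast h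
      rw [abs_of_nonneg (by linarith)]
      linarith
  have h2 : |(n : ℝ) - (((m / 2 : ℕ) : ℝ) + 1 / 2)| ≤
      |(m : ℝ) * x - n| + |(m : ℝ) * x - (((m / 2 : ℕ) : ℝ) + 1 / 2)| := by
    have := abs_sub_le (n : ℝ) ((m : ℝ) * x) (((m / 2 : ℕ) : ℝ) + 1 / 2)
    rw [abs_sub_comm (n : ℝ) ((m : ℝ) * x)] at this
    exact this
  linarith

lemma tent_lip (m : ℕ) (x y : ℝ) : tent m x - tent m y ≤ m * |x - y| := by
  have h1 : |(m : ℝ) * y - (((m / 2 : ℕ) : ℝ) + 1 / 2)| ≤
      |(m : ℝ) * x - (((m / 2 : ℕ) : ℝ) + 1 / 2)| + m * |x - y| := by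
    have := abs_sub_le ((m : ℝ) * y) ((m : ℝ) * x) (((m / 2 : ℕ) : ℝ) + 1 / 2)
    have e : |(m : ℝ) * y - m * x| = m * |x - y| := by
      rw [← mul_sub, abs_mul, abs_of_nonneg (Nat.cast_nonneg m), abs_sub_comm]
    rw [e] at this
    linarith
  have h2 : (0 : ℝ) ≤ m * |x - y| := by positivity
  have h3 : tent m x ≤ tent m y + m * |x - y| := by
    apply max_le
    · linarith [tent_nonneg m y]
    · have := le_max_right 0 (1 / 2 - |(m : ℝ) * y - (((m / 2 : ℕ) : ℝ) + 1 / 2)|)
      have h4 : 1 / 2 - |(m : ℝ) * y - (((m / 2 : ℕ) : ℝ) + 1 / 2)| ≤ tent m y := this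
      linarith
  linarith

lemma half_bounds (m : ℕ) : (m : ℝ) / 2 - 1 / 2 ≤ ((m / 2 : ℕ) : ℝ) ∧ ((m / 2 : ℕ) : ℝ) ≤ m / 2 := by
  constructor
  · have : m ≤ 2 * (m / 2) + 1 := by omega
    have : (m : ℝ) ≤ 2 * ((m / 2 : ℕ) : ℝ) + 1 := by exact_mod_cast this
    linarith
  · have : 2 * (m / 2) ≤ m := by omega
    have : 2 * ((m / 2 : ℕ) : ℝ) ≤ m := by exact_mod_cast this
    linarith

/-- Chord bound, both end points near the ends of `[0,1]`. -/
lemma chord_both {A B t : ℝ} (hA : A < 1 / 4) (hB : 3 / 4 < B)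
    (h3 : A ≤ t) (h4 : t ≤ B) :
    4 * (A * B - (1 - B) * A) / (B - A) + 4 * ((1 - B) - A) / (B - A) * t ≤
      min 1 (min (4 * t) (4 * (1 - t))) := by
  have hD : 0 < B - A := by linarith
  have e : 4 * (A * B - (1 - B) * A) / (B - A) + 4 * ((1 - B) - A) / (B - A) * t
      = (4 * A * (B - t) + 4 * (1 - B) * (t - A)) / (B - A) := by
    field_simp; ring
  rw [e, div_le_iff₀ hD]
  have p1 := mul_nonneg (show 0 ≤ 1 - 4 * A by linarith) (show 0 ≤ B - t by linarith)
  have p2 := mul_nonneg (show 0 ≤ 1 - 4 * (1 - B) by linarith) (show 0 ≤ t - A by linarith)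
  have p3 := mul_nonneg (show 0 ≤ 2 * B - 1 by linarith) (show 0 ≤ t - A by linarith)
  have p4 := mul_nonneg (show 0 ≤ 1 - 2 * A by linarith) (show 0 ≤ B - t by linarith)
  rcases min_choice 1 (min (4 * t) (4 * (1 - t))) with hh | hh
  · rw [hh]; linarith
  · rw [hh]
    rcases min_choice (4 * t) (4 * (1 - t)) with hh2 | hh2
    · rw [hh2]; linarith
    · rw [hh2]; linarith

lemma chord_both_avg {A B S : ℝ} (hA0 : 0 ≤ A) (hB1 : B ≤ 1) (hA : A < 1 / 4) (hB : 3 / 4 < B)
    (hSlo : 9 / 20 ≤ S) (hShi : S ≤ 11 / 20) :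
    16 / 15 * (A + (1 - B)) ≤
      4 * (A * B - (1 - B) * A) / (B - A) + 4 * ((1 - B) - A) / (B - A) * S := by
  have hD : 0 < B - A := by linarith
  have e : 4 * (A * B - (1 - B) * A) / (B - A) + 4 * ((1 - B) - A) / (B - A) * S
      = (4 * A * (B - S) + 4 * (1 - B) * (S - A)) / (B - A) := by
    field_simp; ring
  rw [e, le_div_iff₀ hD]
  have p1 := mul_nonneg hA0 (show 0 ≤ 15 * (B - S) - 4 * (B - A) by linarith)
  have p2 := mul_nonneg (show 0 ≤ 1 - B by linarith)
    (show 0 ≤ 15 * (S - A) - 4 * (B - A) by linarith)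
  linarith

/-- Chord bound, only the left end point near an end of `[0,1]`. -/
lemma chord_left {A B t : ℝ} (hA : A < 1 / 4) (hB : B ≤ 3 / 4) (hB' : 1 / 4 ≤ B)
    (h3 : A ≤ t) (h4 : t ≤ B) :
    4 * A - (1 - 4 * A) * A / (B - A) + (1 - 4 * A) / (B - A) * t ≤
      min 1 (min (4 * t) (4 * (1 - t))) := by
  have hD : 0 < B - A := by linarith
  have e : 4 * A - (1 - 4 * A) * A / (B - A) + (1 - 4 * A) / (B - A) * t
      = (4 * A * (B - A) + (1 - 4 * A) * (t - A)) / (B - A) := by
    field_simp; ring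
  rw [e, div_le_iff₀ hD]
  have p1 := mul_nonneg (show 0 ≤ 1 - 4 * A by linarith) (show 0 ≤ B - t by linarith)
  have p2 := mul_nonneg (show 0 ≤ 4 * B - 1 by linarith) (show 0 ≤ t - A by linarith)
  have p3 := mul_nonneg (show 0 ≤ 3 / 4 - t by linarith) hD.le
  rcases min_choice 1 (min (4 * t) (4 * (1 - t))) with hh | hh
  · rw [hh]; linarith
  · rw [hh]
    rcases min_choice (4 * t) (4 * (1 - t)) with hh2 | hh2
    · rw [hh2]; linarith
    · rw [hh2]; linarith

lemma chord_left_avg {A B S : ℝ} (hA0 : 0 ≤ A) (hA : A < 1 / 4) (hB : B ≤ 3 / 4)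
    (hSlo : 9 / 20 ≤ S) (hSB : S ≤ B) :
    1 + 1 / 320 ≤ 4 * A - (1 - 4 * A) * A / (B - A) + (1 - 4 * A) / (B - A) * S + (B - A) := by
  have hD : 0 < B - A := by linarith
  have e : 4 * A - (1 - 4 * A) * A / (B - A) + (1 - 4 * A) / (B - A) * S + (B - A) =
      (4 * A * (B - A) + (1 - 4 * A) * (S - A) + (B - A) ^ 2) / (B - A) := by
    field_simp; ring
  rw [e, le_div_iff₀ hD]
  have hu : 0 ≤ 1 - 4 * A := by linarith
  have hS' : (1 - 4 * A) * (9 / 20 - A) ≤ (1 - 4 * A) * (S - A) :=
    mul_le_mul_of_nonneg_left (by linarith) hu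
  have hDlo : 1 / 5 ≤ B - A := by linarith
  have hDhi : B - A ≤ 3 / 4 := by linarith
  -- `(D - u/2)^2 + u/5 ≥ D/320` with `u = 1 - 4A`
  set u := 1 - 4 * A with hudef
  set D := B - A with hDdef
  have e2 : 4 * A * D + u * (9 / 20 - A) + D ^ 2 - (1 + 1 / 320) * D =
      (D - u / 2) ^ 2 + u / 5 - D / 320 := by
    have : A = (1 - u) / 4 := by rw [hudef]; ring
    rw [this]; ring
  have h5 : 0 ≤ (D - u / 2) ^ 2 + u / 5 - D / 320 := by
    rcases le_total (1 / 80) u with hu2 | hu2
    · have := sq_nonneg (D - u / 2)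
      linarith
    · have h6 : 3 / 16 ≤ D - u / 2 := by linarith
      have h7 : (3 / 16) ^ 2 ≤ (D - u / 2) ^ 2 := pow_le_pow_left₀ (by norm_num) h6 2
      norm_num at h7
      linarith
  linarith

/-- The perturbed function `G + tent/(8m)`. -/
noncomputable def Gp (m : ℕ) (x : ℝ) : ℝ := G x + 1 / (8 * m) * tent m x

lemma Gp_inClass {m : ℕ} (hm : 20 ≤ m) : InClass m (Gp m) := by
  have hmpos : (0 : ℝ) < m := by positivity
  have hm20 : (20 : ℝ) ≤ m := by exact_mod_cast hm
  have hc : 0 < 1 / (8 * (m : ℝ)) := by positivity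
  have hc' : 1 / (8 * (m : ℝ)) ≤ 1 / 160 := by
    apply one_div_le_one_div_of_le (by norm_num); linarith
  obtain ⟨hb1, hb2⟩ := half_bounds m
  refine ⟨?_, ?_, ⟨2, ?_⟩, ?_⟩
  · have h1 := tent_le m 0 0
    have h2 := tent_nonneg m 0
    simp only [mul_zero, Nat.cast_zero, sub_zero, abs_zero] at h1
    have h3 : tent m 0 = 0 := le_antisymm h1 h2
    unfold Gp
    rw [G_zero, h3]; simp
  · have h1 := tent_le m 1 m
    have h2 := tent_nonneg m 1
    simp only [mul_one, sub_self, abs_zero] at h1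
    have h3 : tent m 1 = 0 := le_antisymm h1 h2
    unfold Gp
    rw [G_one, h3]; simp
  · intro x h0 h1
    unfold Gp
    have h2 := G_le_one h0 h1
    have h3 := tent_le_half m x
    have h4 := tent_nonneg m x
    nlinarith
  · intro x hx hmono
    have hrel := G_relaxed (m := m) (by omega) x hx hmono
    have h0 : ∀ i, i < m → x 0 ≤ x i := fun i hi => hmono 0 i (by omega) hi
    have h1 : ∀ i, i < m → x i ≤ x (m - 1) := fun i hi => hmono i (m - 1) (by omega) (by omega)
    have hA0 : 0 ≤ x 0 := (hx 0 (by omega)).1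
    have hB1 : x (m - 1) ≤ 1 := (hx (m - 1) (by omega)).2
    have hSA := avg_lin (m := m) (by omega) (x := x) (g := x) (p := x 0) (q := 0)
      (fun i hi => by simpa using h0 i hi)
    have hSB := avg_lin (m := m) (by omega) (x := x) (g := fun i => - x i) (p := - x (m - 1))
      (q := 0) (fun i hi => by simpa using h1 i hi)
    rw [sum_neg_distrib, neg_div] at hSB
    have hTsum : (0 : ℝ) ≤ (∑ i ∈ range m, tent m (x i)) / m :=
      div_nonneg (sum_nonneg fun i _ => tent_nonneg m _) hmpos.le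
    have hsplit : (∑ i ∈ range m, Gp m (x i)) / m =
        (∑ i ∈ range m, G (x i)) / m + 1 / (8 * m) * ((∑ i ∈ range m, tent m (x i)) / m) := by
      unfold Gp
      rw [sum_add_distrib, ← mul_sum, add_div, mul_div_assoc]
    rw [hsplit]
    have hWi : ∀ i, i < m → min 1 (min (4 * x i) (4 * (1 - x i))) ≤ G (x i) :=
      fun i hi => w_le_G (hx i hi).1 (hx i hi).2
    set A := x 0
    set B := x (m - 1)
    set S := (∑ i ∈ range m, x i) / m with hS
    set W := (∑ i ∈ range m, G (x i)) / m with hW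
    set Tm := (∑ i ∈ range m, tent m (x i)) / m with hTm
    have hAS : A ≤ S := by linarith
    have hSB' : S ≤ B := by linarith
    unfold Gp
    rcases eq_or_lt_of_le (tent_nonneg m S) with ht | ht
    · rw [← ht]
      nlinarith [mul_nonneg hc.le hTsum]
    -- now `S` is close to `1/2`
    have hSabs : |(m : ℝ) * S - (((m / 2 : ℕ) : ℝ) + 1 / 2)| < 1 / 2 := by
      unfold tent at ht
      rcases lt_max_iff.1 ht with h | h
      · exact absurd h (lt_irrefl _)
      · linarith
    obtain ⟨hS1, hS2⟩ := abs_lt.1 hSabs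
    have hSlo : 9 / 20 ≤ S := by nlinarith
    have hShi : S ≤ 11 / 20 := by nlinarith
    have hGS : G S ≤ 1 := G_le_one (by linarith) (by linarith)
    have hTS : tent m S ≤ 1 / 2 := tent_le_half m S
    have hsmall : 1 / (8 * (m : ℝ)) * tent m S ≤ 1 / 320 := by nlinarith
    have hTn : 0 ≤ 1 / (8 * (m : ℝ)) * Tm := mul_nonneg hc.le hTsum
    rcases lt_or_ge A (1 / 4) with hA | hA
    · rcases lt_or_ge (3 / 4) B with hB | hB
      · -- both extremes are near the ends
        -- chord bound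
        have hch : 16 / 15 * (A + (1 - B)) ≤ W := by
          have h2 := avg_lin (m := m) (by omega) (x := x) (g := fun i => G (x i))
            (fun i hi => (chord_both hA hB (h0 i hi) (h1 i hi)).trans (hWi i hi))
          exact (chord_both_avg hA0 hB1 hA hB hSlo hShi).trans h2
        -- tent bound
        have htent : tent m S ≤ ∑ i ∈ range m, min (x i) (1 - x i) := by
          have h2 := tent_le m S ((range m).filter fun i => 1 / 2 < x i).card
          refine h2.trans ?_
          have e1 : (m : ℝ) * S = ∑ i ∈ range m, x i := by rw [hS]; field_simp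
          have e2 : ((((range m).filter fun i => 1 / 2 < x i).card : ℕ) : ℝ) =
              ∑ i ∈ range m, (if 1 / 2 < x i then (1 : ℝ) else 0) := by
            rw [sum_ite, sum_const_zero, add_zero]
            simp
          rw [e1, e2, ← sum_sub_distrib]
          refine (abs_sum_le_sum_abs _ _).trans ?_
          apply sum_le_sum
          intro i hi
          have h3 := hx i (mem_range.1 hi)
          split_ifs with h4
          · rw [min_eq_right (by linarith), abs_of_nonpos (by linarith)]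
            linarith
          · rw [min_eq_left (by linarith), sub_zero, abs_of_nonneg h3.1]
        have hW2 : (∑ i ∈ range m, min (x i) (1 - x i)) ≤ m * W / 2 := by
          have e1 : (m : ℝ) * W / 2 = ∑ i ∈ range m, G (x i) / 2 := by
            rw [hW, ← sum_div]; field_simp
          rw [e1]
          apply sum_le_sum
          intro i hi
          have h3 := hx i (mem_range.1 hi)
          have h4 := hWi i (mem_range.1 hi)
          rcases le_total (x i) (1 - x i) with h5 | h5
          · rw [min_eq_left h5]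
            rw [min_eq_left (show 4 * x i ≤ 4 * (1 - x i) by linarith)] at h4
            rcases min_choice 1 (4 * x i) with h6 | h6 <;> rw [h6] at h4 <;> linarith [h3.1]
          · rw [min_eq_right h5]
            rw [min_eq_right (show 4 * (1 - x i) ≤ 4 * x i by linarith)] at h4
            rcases min_choice 1 (4 * (1 - x i)) with h6 | h6 <;> rw [h6] at h4 <;> linarith [h3.2]
        have h5 : 1 / (8 * (m : ℝ)) * tent m S ≤ W / 16 := by
          have := mul_le_mul_of_nonneg_left (htent.trans hW2) hc.le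
          have e : 1 / (8 * (m : ℝ)) * (m * W / 2) = W / 16 := by field_simp; ring
          rw [e] at this
          exact this
        linarith
      · -- `A < 1/4`, `B ≤ 3/4`
        have h2 := avg_lin (m := m) (by omega) (x := x) (g := fun i => G (x i))
          (fun i hi => (chord_left hA hB (by linarith) (h0 i hi) (h1 i hi)).trans (hWi i hi))
        have h3 := chord_left_avg hA0 hA hB hSlo hSB'
        have h4 : 1 + 1 / 320 ≤ W + (B - A) := by
          refine h3.trans ?_
          exact add_le_add_left h2 _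
        linarith
    · rcases lt_or_ge (3 / 4) B with hB | hB
      · -- `A ≥ 1/4`, `B > 3/4`
        have h2 := avg_lin (m := m) (by omega) (x := fun i => 1 - x i) (g := fun i => G (x i))
          (fun i hi => (chord_left (A := 1 - B) (B := 1 - A) (t := 1 - x i)
            (by linarith) (by linarith) (by linarith) (by linarith [h1 i hi])
            (by linarith [h0 i hi])).trans ((le_of_eq (by
              rw [sub_sub_cancel, min_comm (4 * (1 - x i))])).trans (hWi i hi)))
        have e : (∑ i ∈ range m, (1 - x i)) / (m : ℝ) = 1 - S := by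
          rw [hS, sum_sub_distrib]
          simp only [sum_const, card_range, nsmul_eq_mul, mul_one]
          field_simp
        rw [e] at h2
        have h3 := chord_left_avg (A := 1 - B) (B := 1 - A) (S := 1 - S) (by linarith)
          (by linarith) (by linarith) (by linarith) (by linarith)
        have h4 : 1 + 1 / 320 ≤ W + (1 - A - (1 - B)) := by
          refine h3.trans ?_
          exact add_le_add_left h2 _
        linarith
      · -- all points in `[1/4, 3/4]`
        have hW1 : 1 ≤ W := by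
          have h2 := avg_lin (m := m) (by omega) (x := x) (g := fun i => G (x i)) (p := 1) (q := 0)
            (by
              intro i hi
              refine le_trans ?_ (hWi i hi)
              have h3 := h0 i hi
              have h4 := h1 i hi
              rw [zero_mul, add_zero]
              exact le_min le_rfl (le_min (by linarith) (by linarith)))
          simpa using h2
        have hT1 : tent m S - m * (B - A) ≤ Tm := by
          have h2 := avg_lin (m := m) (by omega) (x := x) (g := fun i => tent m (x i))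
            (p := tent m S - m * (B - A)) (q := 0) (by
              intro i hi
              have h3 := h0 i hi
              have h4 := h1 i hi
              have h5 := tent_lip m S (x i)
              have h6 : |S - x i| ≤ B - A := abs_le.2 ⟨by linarith, by linarith⟩
              have h7 := mul_le_mul_of_nonneg_left h6 hmpos.le
              linarith)
          simpa using h2
        have h3 := mul_le_mul_of_nonneg_left hT1 hc.le
        have e : 1 / (8 * (m : ℝ)) * (tent m S - m * (B - A)) =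
            1 / (8 * (m : ℝ)) * tent m S - (B - A) / 8 := by
          field_simp
        rw [e] at h3
        linarith

/-- The rate `1/m` cannot be improved. -/
lemma sharp {m : ℕ} (hm : 20 ≤ m) : ∃ x : ℝ, 0 ≤ x ∧ x ≤ 1 ∧ G x + 1 / (16 * m) ≤ F m x := by
  have hmpos : (0 : ℝ) < m := by positivity
  have hm20 : (20 : ℝ) ≤ m := by exact_mod_cast hm
  obtain ⟨hb1, hb2⟩ := half_bounds m
  have h0 : (0 : ℝ) ≤ (((m / 2 : ℕ) : ℝ) + 1 / 2) / m := by positivity
  have h1 : (((m / 2 : ℕ) : ℝ) + 1 / 2) / m ≤ 1 := by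
    rw [div_le_one hmpos]; linarith
  refine ⟨(((m / 2 : ℕ) : ℝ) + 1 / 2) / m, h0, h1, ?_⟩
  have h := le_F (by omega) (Gp_inClass hm) h0 h1
  have ht : tent m ((((m / 2 : ℕ) : ℝ) + 1 / 2) / m) = 1 / 2 := by
    unfold tent
    rw [mul_div_cancel₀ _ hmpos.ne', sub_self, abs_zero, sub_zero]
    norm_num
  unfold Gp at h
  rw [ht] at h
  have e : 1 / (8 * (m : ℝ)) * (1 / 2) = 1 / (16 * m) := by field_simp; norm_num
  rw [e] at h
  exact h

/-- Exact values of `F_m`. -/
lemma exact_value {m : ℕ} (hm : 2 ≤ m) (j k : ℕ)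
    (h1 : (((k : ℝ) + 1) / ((k : ℝ) + 2)) ^ (k + 2) ≤ (j : ℝ) / m)
    (h2 : (j : ℝ) / m ≤ ((k : ℝ) / ((k : ℝ) + 1)) ^ k) (h3 : ((j : ℝ) / m) ^ (k + 1) ≤ 3 / 4) :
    F m (((j : ℝ) / m) ^ (k + 1)) = ((k : ℝ) + 1) * ((j : ℝ) / m) ^ k ∧
      F m (1 - ((j : ℝ) / m) ^ (k + 1)) = ((k : ℝ) + 1) * ((j : ℝ) / m) ^ k := by
  have hmpos : (0 : ℝ) < m := by positivity
  have hr : 0 < (j : ℝ) / m := lt_of_lt_of_le (by positivity) h1
  have hj1 : (j : ℝ) / m ≤ 1 := by
    refine h2.trans (pow_le_one₀ (by positivity) ?_)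
    rw [div_le_one (by positivity)]
    linarith
  have hjm : j ≤ m := by
    rw [div_le_one hmpos] at hj1
    exact_mod_cast hj1
  have hx0 : 0 ≤ ((j : ℝ) / m) ^ (k + 1) := by positivity
  have hx1 : ((j : ℝ) / m) ^ (k + 1) ≤ 1 := by linarith
  have key : F m (((j : ℝ) / m) ^ (k + 1)) = ((k : ℝ) + 1) * ((j : ℝ) / m) ^ k := by
    apply le_antisymm
    · exact F_le (by omega) fun f hf => F_pow_le hm hf hjm k
    · rw [← G_eq_pow k h1 h2 h3]
      exact le_F hm (G_inClass (by omega)) hx0 hx1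
  exact ⟨key, by rw [F_symm hm hx0 hx1, key]⟩

/-- The value `F m x` is a maximum. -/
lemma F_isGreatest {m : ℕ} (hm : 2 ≤ m) {x : ℝ} (h0 : 0 ≤ x) (h1 : x ≤ 1) :
    IsGreatest {y : ℝ | ∃ f : ℝ → ℝ, InClass m f ∧ y = f x} (F m x) := by
  refine ⟨⟨F m, F_inClass hm, rfl⟩, ?_⟩
  rintro _ ⟨f, hf, rfl⟩
  exact le_F hm hf h0 h1

/-- The intervals on which `G` is explicit. -/
lemma G_explicit (k : ℕ) (x : ℝ) (h1 : (((k : ℝ) + 1) / ((k : ℝ) + 2)) ^ ((k + 1) * (k + 2)) ≤ x)
    (h2 : x ≤ ((k : ℝ) / ((k : ℝ) + 1)) ^ (k * (k + 1))) (h3 : x ≤ 3 / 4) :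
    G x = ((k : ℝ) + 1) * x ^ ((k : ℝ) / ((k : ℝ) + 1)) := by
  have hx : 0 < x := lt_of_lt_of_le (by positivity) h1
  obtain ⟨r, hr0, hr⟩ := exists_root k hx.le
  have e := G_eq_pow k (r := r)
  rw [hr] at e
  have h4 : (((k : ℝ) + 1) / ((k : ℝ) + 2)) ^ (k + 2) ≤ r := by
    by_contra hcon
    push Not at hcon
    have := pow_lt_pow_left₀ hcon hr0 (show k + 1 ≠ 0 by omega)
    rw [hr, ← pow_mul, mul_comm (k + 2) (k + 1)] at this
    linarith
  have h5 : r ≤ ((k : ℝ) / ((k : ℝ) + 1)) ^ k := by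
    by_contra hcon
    push Not at hcon
    have := pow_lt_pow_left₀ hcon (by positivity) (show k + 1 ≠ 0 by omega)
    rw [hr, ← pow_mul] at this
    linarith
  rw [e h4 h5 h3]
  have := a_pow k hr0
  rw [hr] at this
  rw [← this]
  rfl

end Pool.Agent.H14RC
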